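import Pool.Agent.H9.Special.Main

/-!
# An effective nef class without condition (B) all of whose multiples are special
-/

namespace Pool.Agent.Results.MP_fa7d23_ag.SpecialMultiples

open Pool.Agent.H9.Special

universe u

/-- Over every algebraically closed field `k` there are 21 distinct points of the plane and an
effective nef class `L` on their blow-up for which condition (B) fails and `h¹(mL) > 0` for every
`m ≥ 1`. -/
theorem result (k : Type u) [Field k] [IsAlgClosed k] :
    ∃ (p : Fin 21 → Fin 3 → k) (L : Cls 21), DistinctPoints p ∧ Effective p L ∧ Nef p L ∧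
      ¬ CondB p L ∧ ∀ m : ℕ, 1 ≤ m → 0 < h1 p (m • L) :=
  main k

end Pool.Agent.Results.MP_fa7d23_ag.SpecialMultiples
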